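import Pool.Agent.SSPG.Metr

/-! Homomorphisms with finite supports and closed G-delta subgroups. -/

open Filter Topology Set TopologicalSpace

namespace SSPG

variable {G : Type*} [AddCommGroup G] [TopologicalSpace G] [IsTopologicalAddGroup G]

/-- Lemma S -/
theorem lemmaS (hG : SSP G) {ι A : Type*} [AddCommGroup A] (e : ι → G →+ A)
    (hfin : ∀ g, {i | e i g ≠ 0}.Finite) (h : ∀ i, ∃ N : AddSubgroup G, PO N ∧ ∀ x ∈ N, e i x = 0)
    (N0 : AddSubgroup G) (h0 : PO N0) :
    ∃ N : AddSubgroup G, PO N ∧ N ≤ N0 ∧ ∀ i, ∀ x ∈ N, e i x = 0 := by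
  classical
  by_contra hcon
  have hcon' : ∀ N : AddSubgroup G, PO N → N ≤ N0 → ∃ i, ∃ x ∈ N, e i x ≠ 0 := by
    intro N hN hle
    by_contra h'
    push Not at h'
    exact hcon ⟨N, hN, hle, h'⟩
  choose K hK hK' using h
  have hT : ∀ T : Finset ι, ∀ N : AddSubgroup G, PO N → ∃ N' : AddSubgroup G, PO N' ∧ N' ≤ N ∧
      ∀ i ∈ T, ∀ x ∈ N', e i x = 0 := by
    intro T N hN
    obtain ⟨N', h1, h2, h3⟩ := exists_PO_le_of_countable (fun i : T => K i.1) (fun i => hK i.1) N hN
    exact ⟨N', h1, h2, fun i hi x hx => hK' i x (h3 ⟨i, hi⟩ hx)⟩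
  have key : ∀ n : ℕ, ∀ (s : G) (N : AddSubgroup G), PO N → N ≤ N0 →
      ∃ g ∈ N, ∃ T : Finset ι, T.card = n ∧ ∀ i ∈ T, e i (s + g) ≠ 0 := by
    intro n
    induction n with
    | zero => intro s N _ _; exact ⟨0, N.zero_mem, ∅, rfl, by simp⟩
    | succ n ih =>
      intro s N hN hle
      obtain ⟨g, hg, T, hTc, hTe⟩ := ih s N hN hle
      obtain ⟨N1, hN1, hle1, hN1e⟩ := hT T N hN
      obtain ⟨i, x, hx, hix⟩ := hcon' N1 hN1 (hle1.trans hle)
      have hiT : i ∉ T := fun hi => hix (hN1e i hi x hx)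
      by_cases hz : e i (s + g) = 0
      · refine ⟨g + x, N.add_mem hg (hle1 hx), insert i T, ?_, ?_⟩
        · rw [Finset.card_insert_of_notMem hiT, hTc]
        · intro i' hi'
          rw [Finset.mem_insert] at hi'
          rw [← add_assoc, map_add]
          rcases hi' with rfl | hi'
          · rw [hz, zero_add]; exact hix
          · rw [hN1e i' hi' x hx, add_zero]; exact hTe i' hi'
      · refine ⟨g, hg, insert i T, ?_, ?_⟩
        · rw [Finset.card_insert_of_notMem hiT, hTc]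
        · intro i' hi'
          rw [Finset.mem_insert] at hi'
          rcases hi' with rfl | hi'
          · exact hz
          · exact hTe i' hi'
  have hnwd : ∀ n : ℕ, NWD {g : G | g ∈ N0 ∧ {i | e i g ≠ 0}.ncard ≤ n} := by
    intro n s N hN
    obtain ⟨N1, hN1, hle1, hle0⟩ := exists_PO_le_two N N0 hN h0
    obtain ⟨g, hg, T, hTc, hTe⟩ := key (n + 1) s N1 hN1 hle0
    obtain ⟨N', hN', hle', hN'e⟩ := hT T N hN
    refine ⟨g, hle1 hg, N', hN', hle', fun x hx hmem => ?_⟩
    have h1 : (T : Set ι) ⊆ {i | e i (s + g + x) ≠ 0} := by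
      intro i hi
      have hi' : i ∈ T := by simpa using hi
      simp only [mem_ofPred_eq, map_add, hN'e i hi' x hx, add_zero]
      simpa using hTe i hi'
    have h2 := Set.ncard_le_ncard h1 (hfin _)
    rw [Set.ncard_coe_finset, hTc] at h2
    have := hmem.2
    omega
  obtain ⟨g, hg, hg'⟩ := baire hG _ hnwd N0 h0 0
  refine hg' ({i | e i g ≠ 0}.ncard) ⟨by simpa using hg, le_rfl⟩

/-- the unbounded case: infinitely many coordinates are nonzero on all closed G-delta subgroups -/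
theorem infinite_coord [T2Space G] (hG : SSP G) {ι : Type*} (e : ι → G →+ ℚ)
    (hfin : ∀ g, {i | e i g ≠ 0}.Finite) (htors : ∀ g, (∀ i, e i g = 0) → ∃ m : ℕ, (m + 1) • g = 0)
    (hub : ∀ N : AddSubgroup G, PO N → ∀ m : ℕ, ∃ g ∈ N, (m + 1) • g ≠ 0)
    (hex : ∃ N : AddSubgroup G, PO N) :
    {i | ∀ N : AddSubgroup G, PO N → ∃ x ∈ N, e i x ≠ 0}.Infinite := by
  classical
  intro hA
  obtain ⟨N0, h0⟩ := hex
  obtain ⟨Ns, hNs, hle, hNse⟩ := lemmaS hG
    (fun i : {i // i ∉ {i | ∀ N : AddSubgroup G, PO N → ∃ x ∈ N, e i x ≠ 0}} => e i.1)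
    (fun g => ((hfin g).preimage (Subtype.val_injective.injOn)).subset (fun i hi => hi))
    (fun i => by
      have := i.2
      simp only [mem_ofPred_eq] at this
      push Not at this
      exact this) N0 h0
  set A := {i | ∀ N : AddSubgroup G, PO N → ∃ x ∈ N, e i x ≠ 0} with hAdef
  have : Finite A := hA
  have hrep : ∀ q : A → ℚ, ∃ x ∈ Ns, (∃ y ∈ Ns, ∀ i : A, e i.1 y = q i) → ∀ i : A, e i.1 x = q i := by
    intro q
    by_cases hq : ∃ y ∈ Ns, ∀ i : A, e i.1 y = q i
    · obtain ⟨y, hy, hy'⟩ := hq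
      exact ⟨y, hy, fun _ => hy'⟩
    · exact ⟨0, Ns.zero_mem, fun h => absurd h hq⟩
  choose r hr hr' using hrep
  have hcount : Countable ((A → ℚ) × ℕ) := by infer_instance
  obtain ⟨x, hx, hx'⟩ := baire_countable (κ := (A → ℚ) × ℕ) hG
    (fun c => {x : G | (c.2 + 1) • (x - r c.1) = 0}) (by
      rintro ⟨q, m⟩ s N hN
      have hexg : ∃ g ∈ N, (m + 1) • (s + g - r q) ≠ 0 := by
        by_cases hz : (m + 1) • (s - r q) = 0
        · obtain ⟨g, hg, hg'⟩ := hub N hN m
          refine ⟨g, hg, ?_⟩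
          have : s + g - r q = (s - r q) + g := by abel
          rw [this, smul_add, hz, zero_add]
          exact hg'
        · exact ⟨0, N.zero_mem, by simpa using hz⟩
      obtain ⟨g, hg, hg'⟩ := hexg
      obtain ⟨N', hN', hle', hnot⟩ := exists_PO_notMem hg' N hN
      refine ⟨g, hg, N', hN', hle', fun n hn hmem => hnot ?_⟩
      simp only [mem_ofPred_eq] at hmem
      have h1 : (m + 1) • (s + g - r q) = -((m + 1) • n) := by
        have h2 : s + g + n - r q = (s + g - r q) + n := by abel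
        rw [h2, smul_add] at hmem
        exact eq_neg_of_add_eq_zero_left hmem
      rw [h1]
      exact N'.neg_mem (N'.nsmul_mem hn _)) Ns hNs 0
  rw [sub_zero] at hx
  have hxq := hr' (fun i : A => e i.1 x) ⟨x, hx, fun _ => rfl⟩
  obtain ⟨m, hm⟩ := htors (x - r (fun i : A => e i.1 x)) (by
    intro i
    by_cases hi : i ∈ A
    · rw [map_sub, hxq ⟨i, hi⟩, sub_self]
    · exact hNse ⟨i, hi⟩ _ (Ns.sub_mem hx (hr _)))
  exact hx' (fun i : A => e i.1 x, m) hm

end SSPG
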