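import Pool.Agent.SSPG.Good
import Pool.Agent.SSPG.Supp

/-! Coordinates on abelian groups, and Case B: some closed G-delta subgroup is bounded. -/

open Filter Topology Set TopologicalSpace

namespace SSPG

universe u

theorem coordsK (K : Type) [Field K] (V : Type u) [AddCommGroup V] [Module K V] :
    ∃ (ι : Type u) (e : ι → V →+ K), (∀ v, {i | e i v ≠ 0}.Finite) ∧
      ∀ v, (∀ i, e i v = 0) → v = 0 := by
  classical
  let b := Module.Basis.ofVectorSpace K V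
  refine ⟨Module.Basis.ofVectorSpaceIndex K V, fun i => (b.coord i).toAddMonoidHom, ?_, ?_⟩
  · intro v
    refine (b.repr v).hasFiniteSupport.subset ?_
    intro i hi
    simpa using hi
  · intro v hv
    apply b.repr.injective
    ext i
    simpa using hv i

theorem coordsZ (p : ℕ) (hp : p.Prime) (V : Type u) [AddCommGroup V] (h : ∀ x : V, p • x = 0) :
    ∃ (ι : Type u) (e : ι → V →+ ZMod p), (∀ v, {i | e i v ≠ 0}.Finite) ∧
      ∀ v, (∀ i, e i v = 0) → v = 0 := by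
  have := Fact.mk hp
  let _ : Module (ZMod p) V := AddCommGroup.zmodModule h
  exact coordsK (ZMod p) V

theorem coordsQ (G : Type u) [AddCommGroup G] :
    ∃ (ι : Type u) (e : ι → G →+ ℚ), (∀ v, {i | e i v ≠ 0}.Finite) ∧
      ∀ v, (∀ i, e i v = 0) → ∃ m : ℕ, (m + 1) • v = 0 := by
  classical
  let f : G →ₗ[ℤ] TensorProduct ℤ ℚ G := TensorProduct.mk ℤ ℚ G 1
  obtain ⟨ι, e, h1, h2⟩ := coordsK ℚ (TensorProduct ℤ ℚ G)
  have : IsLocalizedModule (nonZeroDivisors ℤ) f :=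
    (isLocalizedModule_iff_isBaseChange (nonZeroDivisors ℤ) ℚ f).2 (TensorProduct.isBaseChange ℤ G ℚ)
  refine ⟨ι, fun i => (e i).comp f.toAddMonoidHom, fun v => h1 (f v), ?_⟩
  · intro v hv
    have h0 : f v = 0 := h2 _ hv
    rw [IsLocalizedModule.eq_zero_iff (nonZeroDivisors ℤ) f] at h0
    obtain ⟨c, hc⟩ := h0
    have hc0 : (c : ℤ) ≠ 0 := nonZeroDivisors.coe_ne_zero c
    refine ⟨(c : ℤ).natAbs - 1, ?_⟩
    have h3 : (c : ℤ).natAbs - 1 + 1 = (c : ℤ).natAbs := by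
      have := Int.natAbs_pos.2 hc0
      omega
    rw [h3]
    have hc' : (c : ℤ) • v = 0 := hc
    rcases Int.natAbs_eq (c : ℤ) with h | h
    · rw [h] at hc'
      simpa using hc'
    · rw [h] at hc'
      simpa using hc'

variable {G : Type u} [AddCommGroup G] [TopologicalSpace G] [IsTopologicalAddGroup G]

theorem caseB_notMem [T2Space G] (hG : SSP G) (hm : ¬ MetrizableSpace G)
    (hb : ∃ m : ℕ, ∃ N : AddSubgroup G, PO N ∧ ∀ x ∈ N, (m + 1) • x = 0) :
    ∃ p : ℕ, p.Prime ∧ ∀ N : AddSubgroup G, PO N → ∃ x ∈ N, ∀ g : G, p • g ≠ x := by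
  classical
  have hex : ∃ m : ℕ, 0 < m ∧ ∃ N : AddSubgroup G, PO N ∧ ∀ x ∈ N, m • x = 0 := by
    obtain ⟨m, N, hN, h⟩ := hb
    exact ⟨m + 1, Nat.succ_pos m, N, hN, h⟩
  obtain ⟨hmpos, N0, hN0, hmin⟩ := Nat.find_spec hex
  set m := Nat.find hex with hmdef
  have hm1 : m ≠ 1 := by
    intro h1
    obtain ⟨x, hx, hx0⟩ := exists_ne_zero hG hm N0 hN0
    apply hx0
    have := hmin x hx
    rwa [h1, one_smul] at this
  obtain ⟨p, hp, d, hd⟩ := (Nat.exists_prime_and_dvd hm1)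
  have hdm : d < m := by
    rw [hd]
    have hd0 : 0 < d := by
      rcases Nat.eq_zero_or_pos d with h0 | h0
      · rw [h0, mul_zero] at hd; omega
      · exact h0
    calc d = 1 * d := (one_mul d).symm
      _ < p * d := Nat.mul_lt_mul_of_pos_right hp.one_lt hd0
  have hd0 : 0 < d := by
    rcases Nat.eq_zero_or_pos d with h0 | h0
    · rw [h0, mul_zero] at hd; omega
    · exact h0
  have hdne : ∀ N : AddSubgroup G, PO N → ∃ x ∈ N, d • x ≠ 0 := by
    intro N hN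
    by_contra hcon
    push Not at hcon
    exact Nat.find_min hex hdm ⟨hd0, N, hN, hcon⟩
  obtain ⟨N1, hN1, hN1'⟩ := exists_PO_inf hG m N0 hN0 hmin
  refine ⟨p, hp, fun N hN => ?_⟩
  by_contra hcon
  push Not at hcon
  obtain ⟨N2, hN2, hle1, hle2⟩ := exists_PO_le_two N N1 hN hN1
  obtain ⟨x, hx, hx'⟩ := hdne N2 hN2
  obtain ⟨g, hg⟩ := hcon x (hle1 hx)
  have h1 : d • x = m • g := by rw [← hg, smul_smul, hd, mul_comm]
  apply hx'
  rw [h1]
  apply hN1'
  rw [← h1]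
  exact N1.nsmul_mem (hle2 hx) d

theorem caseB [T2Space G] (hG : SSP G) (hm : ¬ MetrizableSpace G)
    (hb : ∃ m : ℕ, ∃ N : AddSubgroup G, PO N ∧ ∀ x ∈ N, (m + 1) • x = 0) :
    ∃ H : AddSubgroup G, H ≠ ⊤ ∧ GD H ∧ Good H := by
  classical
  obtain ⟨p, hp, hN⟩ := caseB_notMem hG hm hb
  have := Fact.mk hp
  let pG : AddSubgroup G := (nsmulAddMonoidHom (α := G) p).range
  obtain ⟨ι, e', hfin', hsep'⟩ := coordsZ p hp (G ⧸ pG) (by
    intro x
    induction x using QuotientAddGroup.induction_on with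
    | H g =>
      rw [← QuotientAddGroup.mk_nsmul, QuotientAddGroup.eq_zero_iff]
      exact ⟨g, rfl⟩)
  let e : ι → G →+ ZMod p := fun i => (e' i).comp (QuotientAddGroup.mk' pG)
  have hfin : ∀ g, {i | e i g ≠ 0}.Finite := fun g => hfin' _
  obtain ⟨W0, hW0, -⟩ := exists_PO (G := G) (fun _ => univ) (fun _ => univ_mem)
  have hex : ∃ i, ∀ N : AddSubgroup G, PO N → ∃ x ∈ N, e i x ≠ 0 := by
    by_contra hcon
    push Not at hcon
    obtain ⟨N, hPN, -, hN'⟩ := lemmaS hG e hfin hcon W0 hW0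
    obtain ⟨x, hx, hx'⟩ := hN N hPN
    have h1 : QuotientAddGroup.mk' pG x = 0 := hsep' _ (fun i => hN' i x hx)
    rw [QuotientAddGroup.mk'_apply, QuotientAddGroup.eq_zero_iff] at h1
    obtain ⟨g, hg⟩ := h1
    exact hx' g hg
  obtain ⟨i, hi⟩ := hex
  refine ⟨(e i).ker, ?_, ?_, good_of_finite hG (e i)⟩
  · intro htop
    obtain ⟨x, hx, hx'⟩ := hi W0 hW0
    apply hx'
    have : x ∈ (e i).ker := by rw [htop]; trivial
    exact this
  · intro N hPN g
    obtain ⟨x, hx, hx'⟩ := hi N hPN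
    refine ⟨(e i g * (e i x)⁻¹).val • x, N.nsmul_mem hx _, ?_⟩
    rw [AddMonoidHom.mem_ker, map_sub, map_nsmul, nsmul_eq_mul, ZMod.natCast_zmod_val,
      mul_assoc, inv_mul_cancel₀ hx', mul_one, sub_self]

end SSPG
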