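import Mathlib

/-! Linear functionals on finitely supported sequences with prescribed values. -/

open Set

namespace SSPG

theorem exists_functional (w : ℕ → (ℕ →₀ ℚ)) (D : ℕ → ℕ) (hD : StrictMono D)
    (h1 : ∀ j, w j (D j) ≠ 0) (h2 : ∀ j i, D j < i → w j i = 0) (v : ℕ → ℚ) :
    ∃ u : (ℕ →₀ ℚ) →ₗ[ℚ] ℚ, ∀ j, u (w j) = v j := by
  classical
  have hli : LinearIndependent ℚ w := by
    rw [linearIndependent_iff']
    intro s g hg
    by_contra hcon
    push Not at hcon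
    have hne : (s.filter (fun j => g j ≠ 0)).Nonempty := by
      obtain ⟨i, hi, hi'⟩ := hcon
      exact ⟨i, by simp [hi, hi']⟩
    obtain ⟨j, hj, hjmax⟩ := (s.filter (fun j => g j ≠ 0)).exists_max_image id hne
    rw [Finset.mem_filter] at hj
    have hev := DFunLike.congr_fun hg (D j)
    rw [Finsupp.finsetSum_apply, Finset.sum_eq_single j] at hev
    · simp only [Finsupp.smul_apply, smul_eq_mul, Finsupp.coe_zero, Pi.zero_apply,
        mul_eq_zero] at hev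
      rcases hev with h | h
      · exact hj.2 h
      · exact h1 j h
    · intro i hi hij
      by_cases hgi : g i = 0
      · simp [hgi]
      · have hle : i ≤ j := hjmax i (by simp [hi, hgi])
        have hlt : i < j := lt_of_le_of_ne hle hij
        simp [h2 i (D j) (hD hlt)]
    · intro h; exact absurd hj.1 h
  let f : Submodule.span ℚ (Set.range w) →ₗ[ℚ] ℚ :=
    (Finsupp.linearCombination ℚ v).comp hli.repr
  obtain ⟨u, hu⟩ := LinearMap.exists_extend f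
  refine ⟨u, fun j => ?_⟩
  have hmem : w j ∈ Submodule.span ℚ (Set.range w) := Submodule.subset_span ⟨j, rfl⟩
  have h3 : u (w j) = f ⟨w j, hmem⟩ := by
    rw [← hu]; rfl
  rw [h3]
  show (Finsupp.linearCombination ℚ v) (hli.repr ⟨w j, hmem⟩) = v j
  rw [hli.repr_eq_single j ⟨w j, hmem⟩ rfl]
  simp

theorem exists_selection (S : ℕ → Set (ℕ →₀ ℚ)) (hS : ∀ t M, ∃ w ∈ S t, ∃ k, M < k ∧ w k ≠ 0) :
    ∃ (w : ℕ → (ℕ →₀ ℚ)) (D : ℕ → ℕ), StrictMono D ∧ (∀ t, w t ∈ S t) ∧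
      (∀ j, w j (D j) ≠ 0) ∧ (∀ j i, D j < i → w j i = 0) := by
  classical
  have hS' : ∀ t M, ∃ q : (ℕ →₀ ℚ) × ℕ, q.1 ∈ S t ∧ M < q.2 ∧ q.1 q.2 ≠ 0 ∧
      ∀ i, q.2 < i → q.1 i = 0 := by
    intro t M
    obtain ⟨w, hw, k, hk, hwk⟩ := hS t M
    have hne : w.support.Nonempty := ⟨k, by simpa using hwk⟩
    refine ⟨(w, w.support.max' hne), hw, ?_, ?_, ?_⟩
    · exact lt_of_lt_of_le hk (Finset.le_max' _ _ (by simpa using hwk))
    · have := Finset.max'_mem w.support hne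
      simpa using this
    · intro i hi
      by_contra h
      have := Finset.le_max' w.support i (by simpa using h)
      simp only at hi
      omega
  choose f hf1 hf2 hf3 hf4 using hS'
  let T : ℕ → (ℕ →₀ ℚ) × ℕ := fun n => Nat.rec (f 0 0) (fun j q => f (j + 1) q.2) n
  have hT : ∀ j, T (j + 1) = f (j + 1) (T j).2 := fun j => rfl
  refine ⟨fun j => (T j).1, fun j => (T j).2, strictMono_nat_of_lt_succ fun j => ?_, ?_, ?_, ?_⟩
  · rw [hT]; exact hf2 _ _
  · intro t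
    cases t with
    | zero => exact hf1 0 0
    | succ t => simp only [hT]; exact hf1 _ _
  · intro t
    cases t with
    | zero => exact hf3 0 0
    | succ t => simp only [hT]; exact hf3 _ _
  · intro t
    cases t with
    | zero => exact hf4 0 0
    | succ t => simp only [hT]; exact hf4 _ _

theorem func_one (L : Set (ℕ →₀ ℚ)) (hL : ∀ k, ∃ l ∈ L, l k ≠ 0) (m : ℕ) :
    ∃ u : (ℕ →₀ ℚ) →ₗ[ℚ] ℚ, (∀ b : ℕ, ∃ l ∈ L, u l = 1 / ((b : ℚ) + 1)) ∧
      ∀ x : ℕ →₀ ℚ, (∀ i, m ≤ i → x i = 0) → u x = 0 := by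
  classical
  let π : (ℕ →₀ ℚ) →ₗ[ℚ] (ℕ →₀ ℚ) :=
    { toFun := fun x => Finsupp.filter (fun i => m ≤ i) x
      map_add' := fun x y => Finsupp.filter_add
      map_smul' := fun c x => Finsupp.filter_smul }
  have hπ : ∀ x i, m ≤ i → π x i = x i := by
    intro x i hi
    exact Finsupp.filter_apply_pos _ _ hi
  have hπ0 : ∀ x i, ¬ m ≤ i → π x i = 0 := by
    intro x i hi
    exact Finsupp.filter_apply_neg _ _ hi
  obtain ⟨w, D, hD, hw, h1, h2⟩ := exists_selection (fun _ => π '' L) (by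
    intro t M
    obtain ⟨l, hl, hl'⟩ := hL (max (M + 1) m)
    refine ⟨π l, ⟨l, hl, rfl⟩, max (M + 1) m, ?_, ?_⟩
    · exact lt_of_lt_of_le (Nat.lt_succ_self M) (le_max_left _ _)
    · rw [hπ _ _ (le_max_right _ _)]; exact hl')
  obtain ⟨u, hu⟩ := exists_functional w D hD h1 h2 (fun b => 1 / ((b : ℚ) + 1))
  refine ⟨u.comp π, fun b => ?_, fun x hx => ?_⟩
  · obtain ⟨l, hl, hl'⟩ := hw b
    exact ⟨l, hl, by rw [LinearMap.comp_apply, hl', hu]⟩
  · have : π x = 0 := by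
      ext i
      by_cases hi : m ≤ i
      · rw [hπ _ _ hi, hx i hi]; rfl
      · rw [hπ0 _ _ hi]; rfl
    rw [LinearMap.comp_apply, this, map_zero]

theorem func_two (L : Set (ℕ →₀ ℚ)) (hL : ∀ k, ∃ l ∈ L, l k ≠ 0) (x : ℕ → (ℕ →₀ ℚ))
    (hx : ∀ m, {k | ∀ i, m ≤ i → x k i = 0}.Finite) :
    ∃ u : (ℕ →₀ ℚ) →ₗ[ℚ] ℚ, (∀ b : ℕ, ∃ l ∈ L, u l = 1 / ((b : ℚ) + 1)) ∧
      ∀ q : ℚ, ∀ K : ℕ, ∃ k, K ≤ k ∧ u (x k) = q := by
  classical
  obtain ⟨w, D, hD, hw, h1, h2⟩ := exists_selection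
    (fun t => if t % 2 = 0 then L else {y | ∃ k, t / 2 ≤ k ∧ y = x k}) (by
    intro t M
    by_cases ht : t % 2 = 0
    · simp only [ht, if_true]
      obtain ⟨l, hl, hl'⟩ := hL (M + 1)
      exact ⟨l, hl, M + 1, Nat.lt_succ_self M, hl'⟩
    · simp only [ht, if_false]
      obtain ⟨K, hK⟩ := (hx (M + 1)).bddAbove
      have h3 : ¬ ∀ i, M + 1 ≤ i → x (max (K + 1) (t / 2)) i = 0 := by
        intro h
        have := hK h
        have h4 := le_max_left (K + 1) (t / 2)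
        omega
      push Not at h3
      obtain ⟨i, hi, hi'⟩ := h3
      exact ⟨x (max (K + 1) (t / 2)), ⟨_, le_max_right _ _, rfl⟩, i, hi, hi'⟩)
  obtain ⟨f, hf⟩ := exists_surjective_nat ℚ
  obtain ⟨u, hu⟩ := exists_functional w D hD h1 h2
    (fun t => if t % 2 = 0 then 1 / (((t / 2 : ℕ) : ℚ) + 1) else f (Nat.unpair (t / 2)).1)
  refine ⟨u, fun b => ?_, fun q K => ?_⟩
  · have h3 := hw (2 * b)
    have h4 := hu (2 * b)
    have h5 : (2 * b) % 2 = 0 := by omega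
    have h6 : (2 * b) / 2 = b := by omega
    simp only [h5, if_true, h6] at h3 h4
    exact ⟨_, h3, h4⟩
  · obtain ⟨a, rfl⟩ := hf q
    have h3 := hw (2 * Nat.pair a K + 1)
    have h4 := hu (2 * Nat.pair a K + 1)
    have h5 : ¬ (2 * Nat.pair a K + 1) % 2 = 0 := by omega
    have h6 : (2 * Nat.pair a K + 1) / 2 = Nat.pair a K := by omega
    simp only [h5, if_false, h6, Nat.unpair_pair] at h3 h4
    obtain ⟨k, hk, hk'⟩ := h3
    refine ⟨k, (Nat.right_le_pair a K).trans hk, ?_⟩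
    rw [← hk', h4]

end SSPG
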