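import Mathlib

/-!
# Selectively sequentially pseudocompact groups: the P-structure

`SSP X`: X is selectively sequentially pseudocompact.
`PO N`: N is a subgroup of the form `⋂ j, W j` with `W j` neighbourhoods of 0,
`W (j+1) + W (j+1) ⊆ W j`, `- W j = W j` (a closed G-delta subgroup).
-/

open Filter Topology Set

namespace SSPG

/-- selectively sequentially pseudocompact space -/
def SSP (X : Type*) [TopologicalSpace X] : Prop :=
  ∀ U : ℕ → Set X, (∀ n, IsOpen (U n)) → (∀ n, (U n).Nonempty) →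
    ∃ x : ℕ → X, (∀ n, x n ∈ U n) ∧
      ∃ φ : ℕ → ℕ, StrictMono φ ∧ ∃ a : X, Tendsto (x ∘ φ) atTop (𝓝 a)

theorem SSP.seq {X : Type*} [TopologicalSpace X] (h : SSP X) (U : ℕ → Set X)
    (ho : ∀ n, IsOpen (U n)) (hne : ∀ n, (U n).Nonempty) :
    ∃ φ : ℕ → ℕ, StrictMono φ ∧ ∃ y : ℕ → X, (∀ k, y k ∈ U (φ k)) ∧
      ∃ a : X, Tendsto y atTop (𝓝 a) := by
  obtain ⟨x, hx, φ, hφ, a, ha⟩ := h U ho hne
  exact ⟨φ, hφ, x ∘ φ, fun k => hx (φ k), a, ha⟩

theorem SSP.of {X : Type*} [TopologicalSpace X]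
    (h : ∀ U : ℕ → Set X, (∀ n, IsOpen (U n)) → (∀ n, (U n).Nonempty) →
    ∃ φ : ℕ → ℕ, StrictMono φ ∧ ∃ y : ℕ → X, (∀ k, y k ∈ U (φ k)) ∧
      ∃ a : X, Tendsto y atTop (𝓝 a)) : SSP X := by
  classical
  intro U ho hne
  obtain ⟨φ, hφ, y, hy, a, ha⟩ := h U ho hne
  have hx : ∀ n, ∃ x : X, x ∈ U n ∧ ∀ k, φ k = n → x = y k := by
    intro n
    by_cases hn : ∃ k, φ k = n
    · obtain ⟨k, rfl⟩ := hn
      refine ⟨y k, hy k, fun k' hk' => ?_⟩
      rw [hφ.injective hk']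
    · obtain ⟨x, hx⟩ := hne n
      exact ⟨x, hx, fun k hk => absurd ⟨k, hk⟩ hn⟩
  choose x hx hx' using hx
  refine ⟨x, hx, φ, hφ, a, ?_⟩
  have : x ∘ φ = y := by
    funext k
    exact hx' (φ k) k rfl
  rw [this]
  exact ha

section

variable {G : Type*} [AddCommGroup G] [TopologicalSpace G]

/-- nice sequences of neighbourhoods of zero -/
structure Nice (W : ℕ → Set G) : Prop where
  mem : ∀ j, W j ∈ 𝓝 (0 : G)
  neg : ∀ j x, x ∈ W j → -x ∈ W j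
  add : ∀ j x y, x ∈ W (j + 1) → y ∈ W (j + 1) → x + y ∈ W j

theorem Nice.zero {W : ℕ → Set G} (h : Nice W) (j : ℕ) : (0 : G) ∈ W j :=
  mem_of_mem_nhds (h.mem j)

theorem Nice.succ {W : ℕ → Set G} (h : Nice W) (j : ℕ) : W (j + 1) ⊆ W j := by
  intro x hx
  have := h.add j x 0 hx (h.zero _)
  simpa using this

theorem Nice.anti {W : ℕ → Set G} (h : Nice W) : Antitone W :=
  antitone_nat_of_succ_le h.succ

/-- closed G-delta subgroups -/
def PO (N : AddSubgroup G) : Prop :=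
  ∃ W : ℕ → Set G, Nice W ∧ ∀ x, x ∈ N ↔ ∀ j, x ∈ W j

theorem Nice.exists_sub {W : ℕ → Set G} (h : Nice W) :
    ∃ N : AddSubgroup G, ∀ x, x ∈ N ↔ ∀ j, x ∈ W j :=
  ⟨{ carrier := {x | ∀ j, x ∈ W j}
     zero_mem' := fun j => h.zero j
     add_mem' := fun {x y} hx hy j => h.add j x y (hx _) (hy _)
     neg_mem' := fun {x} hx j => h.neg j x (hx j) }, fun _ => Iff.rfl⟩

variable [IsTopologicalAddGroup G]

theorem exists_half {V : Set G} (hV : V ∈ 𝓝 (0 : G)) :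
    ∃ V' ∈ 𝓝 (0 : G), (∀ x ∈ V', -x ∈ V') ∧ ∀ x ∈ V', ∀ y ∈ V', x + y ∈ V := by
  obtain ⟨V', hV', h⟩ := exists_nhds_zero_half hV
  refine ⟨V' ∩ -V', inter_mem hV' ?_, ?_, ?_⟩
  · have := (continuous_neg.tendsto (0 : G))
    rw [neg_zero] at this
    exact this hV'
  · rintro x ⟨h1, h2⟩
    exact ⟨h2, by simpa using h1⟩
  · rintro x ⟨h1, _⟩ y ⟨h2, _⟩
    exact h x h1 y h2

theorem exists_nice (U : ℕ → Set G) (hU : ∀ j, U j ∈ 𝓝 (0 : G)) :
    ∃ W : ℕ → Set G, Nice W ∧ ∀ j, W j ⊆ U j := by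
  classical
  -- recursion on pairs
  have step : ∀ (j : ℕ) (V : {V : Set G // V ∈ 𝓝 (0 : G) ∧ (∀ x ∈ V, -x ∈ V)}),
      ∃ V' : {V : Set G // V ∈ 𝓝 (0 : G) ∧ (∀ x ∈ V, -x ∈ V)},
        V'.1 ⊆ U j ∧ ∀ x ∈ V'.1, ∀ y ∈ V'.1, x + y ∈ V.1 := by
    rintro j ⟨V, hV, hs⟩
    obtain ⟨V', hV', h1, h2⟩ := exists_half (inter_mem hV (hU j))
    refine ⟨⟨V', hV', h1⟩, ?_, fun x hx y hy => (h2 x hx y hy).1⟩
    intro x hx
    have := (h2 x hx 0 (mem_of_mem_nhds hV')).2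
    simpa using this
  choose f hf1 hf2 using step
  let W : ℕ → {V : Set G // V ∈ 𝓝 (0 : G) ∧ (∀ x ∈ V, -x ∈ V)} := fun n =>
    Nat.rec (f 0 ⟨univ, univ_mem, fun _ _ => trivial⟩) (fun j V => f (j + 1) V) n
  have hW : ∀ j, W (j + 1) = f (j + 1) (W j) := fun j => rfl
  refine ⟨fun j => (W j).1, ⟨fun j => (W j).2.1, fun j x hx => (W j).2.2 x hx, ?_⟩, ?_⟩
  · intro j x y hx hy
    have h := hf2 (j + 1) (W j)
    rw [← hW j] at h
    exact h x hx y hy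
  · intro j
    cases j with
    | zero => exact hf1 0 _
    | succ j =>
      show (W (j + 1)).1 ⊆ _
      rw [hW j]
      exact hf1 (j + 1) _

theorem exists_PO (U : ℕ → Set G) (hU : ∀ j, U j ∈ 𝓝 (0 : G)) :
    ∃ N : AddSubgroup G, PO N ∧ ∀ x ∈ N, ∀ j, x ∈ U j := by
  obtain ⟨W, hW, hWU⟩ := exists_nice U hU
  obtain ⟨N, hN⟩ := hW.exists_sub
  exact ⟨N, ⟨W, hW, hN⟩, fun x hx j => hWU j ((hN x).1 hx j)⟩

theorem exists_PO_le (N : ℕ → AddSubgroup G) (hN : ∀ k, PO (N k)) :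
    ∃ N' : AddSubgroup G, PO N' ∧ ∀ k, N' ≤ N k := by
  choose W hW hWN using hN
  obtain ⟨N', h1, h2⟩ := exists_PO (fun n => W (Nat.unpair n).1 (Nat.unpair n).2)
    (fun n => (hW _).mem _)
  refine ⟨N', h1, fun k x hx => (hWN k x).2 fun j => ?_⟩
  have := h2 x hx (Nat.pair k j)
  simpa using this

theorem exists_PO_le_of_countable {κ : Type*} [Countable κ] (N : κ → AddSubgroup G)
    (hN : ∀ k, PO (N k)) (N0 : AddSubgroup G) (h0 : PO N0) :
    ∃ N' : AddSubgroup G, PO N' ∧ N' ≤ N0 ∧ ∀ k, N' ≤ N k := by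
  rcases isEmpty_or_nonempty κ with he | hne
  · exact ⟨N0, h0, le_rfl, fun k => (IsEmpty.false k).elim⟩
  · obtain ⟨f, hf⟩ := exists_surjective_nat κ
    obtain ⟨N', h1, h2⟩ := exists_PO_le (fun n => Nat.casesOn n N0 (fun n => N (f n)))
      (by intro k; cases k with
        | zero => exact h0
        | succ k => exact hN (f k))
    refine ⟨N', h1, h2 0, fun k => ?_⟩
    obtain ⟨n, rfl⟩ := hf k
    exact h2 (n + 1)

theorem exists_PO_le_two (N1 N2 : AddSubgroup G) (h1 : PO N1) (h2 : PO N2) :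
    ∃ N' : AddSubgroup G, PO N' ∧ N' ≤ N1 ∧ N' ≤ N2 := by
  obtain ⟨N', h, h', h''⟩ := exists_PO_le_of_countable (fun _ : Unit => N2) (fun _ => h2) N1 h1
  exact ⟨N', h, h', h'' ()⟩

theorem exists_PO_notMem [T2Space G] {x : G} (hx : x ≠ 0) (N0 : AddSubgroup G) (h0 : PO N0) :
    ∃ N' : AddSubgroup G, PO N' ∧ N' ≤ N0 ∧ x ∉ N' := by
  obtain ⟨N, hN, h⟩ := exists_PO (fun _ => ({x}ᶜ : Set G))
    (fun _ => isOpen_compl_singleton.mem_nhds (by simpa using hx.symm))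
  obtain ⟨N', h1, h2, h3⟩ := exists_PO_le_two N N0 hN h0
  exact ⟨N', h1, h3, fun hxN => h x (h2 hxN) 0 rfl⟩

/-- completeness of the P-topology -/
theorem complete (hG : SSP G) (N : ℕ → AddSubgroup G) (hN : ∀ k, PO (N k)) (ha : Antitone N)
    (s : ℕ → G) (hs : ∀ k, s (k + 1) - s k ∈ N k) : ∃ g, ∀ k, g - s k ∈ N k := by
  choose W hW hWN using hN
  have hs' : ∀ k l, k ≤ l → s l - s k ∈ N k := by
    intro k l hkl
    induction l, hkl using Nat.le_induction with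
    | base => simp
    | succ l hkl ih =>
      have := (N k).add_mem (ha hkl (hs l)) ih
      simpa using this
  let V : ℕ → Set G := fun j => ⋂ k ∈ Finset.range (j + 1), W k j
  have hV : ∀ j, V j ∈ 𝓝 (0 : G) := fun j => by
    refine (Filter.biInter_finset_mem _).2 fun k _ => (hW k).mem j
  obtain ⟨φ, hφ, x, hx, g, hg⟩ := hG.seq (fun j => interior ((fun v => s j + v) '' V j))
    (fun j => isOpen_interior) (fun j => ⟨s j, by
      rw [mem_interior_iff_mem_nhds]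
      have := (Homeomorph.addLeft (s j)).isOpenMap.image_mem_nhds (hV j)
      simpa using this⟩)
  refine ⟨g, fun k => (hWN k _).2 fun i => ?_⟩
  have h1 : ∀ᶠ j in atTop, x j - g ∈ W k (i + 1 + 1) := by
    have : Tendsto (fun j => x j - g) atTop (𝓝 (g - g)) := hg.sub_const g
    rw [sub_self] at this
    exact this ((hW k).mem _)
  obtain ⟨j, hj1, hj2⟩ := (h1.and (eventually_ge_atTop (max k (i + 1 + 1)))).exists
  have hφj : max k (i + 1 + 1) ≤ φ j := hj2.trans (hφ.id_le j)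
  obtain ⟨v, hv, hv'⟩ := interior_subset (hx j)
  have hv1 : v ∈ W k (i + 1 + 1) := by
    have : v ∈ W k (φ j) := by
      have h := (mem_iInter₂.1 hv) k (Finset.mem_range.2 (by have := le_max_left k (i+1+1); omega))
      exact h
    exact (hW k).anti (le_trans (le_max_right _ _) hφj) this
  have h2 : s (φ j) - s k ∈ W k (i + 1 + 1) :=
    (hWN k _).1 (hs' k (φ j) (le_trans (le_max_left _ _) hφj)) _
  have h3 : g - s k = (-(x j - g)) + 0 + (v + (s (φ j) - s k)) := by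
    rw [← hv']; simp only []; abel
  rw [h3]
  refine (hW k).add i _ _ ?_ ((hW k).add (i + 1) _ _ hv1 h2)
  exact (hW k).add (i + 1) _ _ ((hW k).neg _ _ hj1) ((hW k).zero _)

/-- P-nowhere dense sets -/
def NWD (E : Set G) : Prop :=
  ∀ (s : G) (N : AddSubgroup G), PO N → ∃ g ∈ N, ∃ N' : AddSubgroup G, PO N' ∧ N' ≤ N ∧
    ∀ n ∈ N', s + g + n ∉ E

theorem baire (hG : SSP G) (E : ℕ → Set G) (hE : ∀ j, NWD (E j)) (N0 : AddSubgroup G)
    (h0 : PO N0) (s0 : G) : ∃ g, g - s0 ∈ N0 ∧ ∀ j, g ∉ E j := by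
  classical
  have step : ∀ (j : ℕ) (q : {q : G × AddSubgroup G // PO q.2}),
      ∃ q' : {q : G × AddSubgroup G // PO q.2}, q'.1.1 - q.1.1 ∈ q.1.2 ∧ q'.1.2 ≤ q.1.2 ∧
        ∀ n ∈ q'.1.2, q'.1.1 + n ∉ E j := by
    rintro j ⟨⟨s, N⟩, hN⟩
    obtain ⟨g, hg, N', hN', hle, h⟩ := hE j s N hN
    exact ⟨⟨(s + g, N'), hN'⟩, by simpa using hg, hle, h⟩
  choose f hf1 hf2 hf3 using step
  let S : ℕ → {q : G × AddSubgroup G // PO q.2} := fun n =>
    Nat.rec ⟨(s0, N0), h0⟩ (fun j q => f j q) n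
  have hS : ∀ j, S (j + 1) = f j (S j) := fun j => rfl
  obtain ⟨g, hg⟩ := complete hG (fun k => (S k).1.2) (fun k => (S k).2)
    (antitone_nat_of_succ_le fun k => by rw [hS]; exact hf2 k (S k))
    (fun k => (S k).1.1) (fun k => by rw [hS]; exact hf1 k (S k))
  refine ⟨g, hg 0, fun j => ?_⟩
  have h1 := hg (j + 1)
  have h2 := hf3 j (S j)
  rw [← hS j] at h2
  have h3 := h2 _ h1
  simpa using h3

theorem baire_countable {κ : Type*} [Countable κ] (hG : SSP G) (E : κ → Set G)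
    (hE : ∀ j, NWD (E j)) (N0 : AddSubgroup G) (h0 : PO N0) (s0 : G) :
    ∃ g, g - s0 ∈ N0 ∧ ∀ j, g ∉ E j := by
  rcases isEmpty_or_nonempty κ with he | hne
  · exact ⟨s0, by simp, fun j => (IsEmpty.false j).elim⟩
  · obtain ⟨f, hf⟩ := exists_surjective_nat κ
    obtain ⟨g, h1, h2⟩ := baire hG (fun n => E (f n)) (fun n => hE (f n)) N0 h0 s0
    refine ⟨g, h1, fun k => ?_⟩
    obtain ⟨n, rfl⟩ := hf k
    exact h2 n

end

end SSPG
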