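import Pool.Agent.SSPG.Main
open Filter Topology Set TopologicalSpace
namespace SSPG

/-- arbitrary powers of a compact metrizable space are SSP -/
theorem ssp_pi (X I : Type*) [TopologicalSpace X] [CompactSpace X] [MetrizableSpace X] [Inhabited X] :
    SSP (I → X) := by
  classical
  apply SSP.of
  intro U hU hne
  -- boxes
  have h1 : ∀ n, ∃ (a : I → X) (F : Finset I), ∀ b : I → X, (∀ i ∈ F, b i = a i) → b ∈ U n := by
    intro n
    obtain ⟨a, ha⟩ := hne n
    obtain ⟨F, u, hu, hsub⟩ := isOpen_pi_iff.1 (hU n) a ha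
    exact ⟨a, F, fun b hb => hsub fun i hi => by rw [hb i hi]; exact (hu i hi).2⟩
  choose a F hF using h1
  let C : Set I := ⋃ n, (F n : Set I)
  have hC : C.Countable := countable_iUnion fun n => (F n).countable_toSet
  have : Countable C := hC
  let f : (C → X) → (I → X) := fun c i => if h : i ∈ C then c ⟨i, h⟩ else default
  have hf : Continuous f := by
    refine continuous_pi fun i => ?_
    by_cases h : i ∈ C
    · simp only [f, h, dif_pos]
      exact continuous_apply _
    · simp only [f, h, dif_neg, not_false_iff]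
      exact continuous_const
  obtain ⟨c, φ, hφ, hc⟩ := CompactSpace.tendsto_subseq (fun n => (fun i : C => a n i.1))
  refine ⟨φ, hφ, fun k => f (fun i : C => a (φ k) i.1), fun k => hF _ _ fun i hi => ?_, f c, ?_⟩
  · have : i ∈ C := mem_iUnion.2 ⟨φ k, hi⟩
    simp [f, this]
  · exact (hf.tendsto c).comp hc

/-- uncountable powers of a nontrivial space are not metrizable -/
theorem not_metrizable_pi (X I : Type*) [TopologicalSpace X] [Nontrivial X] [Uncountable I] :
    ¬ MetrizableSpace (I → X) := by
  classical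
  intro h
  obtain ⟨x, y, hxy⟩ := exists_pair_ne X
  obtain ⟨B, hB⟩ := (𝓝 (fun _ : I => x)).exists_antitone_basis
  have h1 : ∀ n, ∃ F : Finset I, ∀ b : I → X, (∀ i ∈ F, b i = x) → b ∈ B n := by
    intro n
    have h2 : B n ∈ 𝓝 (fun _ : I => x) := hB.1.mem_of_mem trivial
    obtain ⟨V, hVB, hV, hxV⟩ := mem_nhds_iff.1 h2
    obtain ⟨F, u, hu, hsub⟩ := isOpen_pi_iff.1 hV _ hxV
    exact ⟨F, fun b hb => hVB (hsub fun i hi => by rw [hb i hi]; exact (hu i hi).2)⟩
  choose F hF using h1
  have hC : (⋃ n, (F n : Set I)).Countable := countable_iUnion fun n => (F n).countable_toSet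
  obtain ⟨i, hi⟩ : ∃ i, i ∉ ⋃ n, (F n : Set I) := by
    by_contra hcon
    push Not at hcon
    have h3 : (⋃ n, (F n : Set I)) = univ := eq_univ_of_forall hcon
    rw [h3] at hC
    exact (not_countable_univ hC)
  have h4 : ∀ n, Function.update (fun _ : I => x) i y ∈ B n := by
    intro n
    refine hF n _ fun j hj => ?_
    have : j ≠ i := by
      rintro rfl
      exact hi (mem_iUnion.2 ⟨n, hj⟩)
    simp [this]
  have h5 : Function.update (fun _ : I => x) i y ≠ (fun _ => x) := by
    intro h6
    have := congrFun h6 i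
    simp at this
    exact hxy this.symm
  have h7 : ({Function.update (fun _ : I => x) i y}ᶜ : Set (I → X)) ∈ 𝓝 (fun _ : I => x) :=
    isOpen_compl_singleton.mem_nhds (by simpa using h5.symm)
  obtain ⟨n, -, hn⟩ := hB.1.mem_iff.1 h7
  exact hn (h4 n) rfl

/-- Non-vacuity of the main theorem: the group of all functions from the reals to Z mod 2 is a
non-metrizable SSP Abelian group (universe zero). -/
theorem example_hyp : SSP (ℝ → ZMod 2) ∧ ¬ MetrizableSpace (ℝ → ZMod 2) :=
  ⟨ssp_pi _ _, not_metrizable_pi _ _⟩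

end SSPG
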