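import Pool.Agent.SSPG.Metr

/-! Good subgroups, and the criterion for a subgroup to be SSP. -/

open Filter Topology Set TopologicalSpace

namespace SSPG

variable {G : Type*} [AddCommGroup G] [TopologicalSpace G]

/-- `H` is good: inside every sequence of open sets there is a convergent sequence with all
differences in `H` -/
def Good (H : AddSubgroup G) : Prop :=
  ∀ U : ℕ → Set G, (∀ n, IsOpen (U n)) → (∀ n, (U n).Nonempty) →
    ∃ φ : ℕ → ℕ, StrictMono φ ∧ ∃ y : ℕ → G, (∀ k, y k ∈ U (φ k)) ∧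
      (∃ a : G, Tendsto y atTop (𝓝 a)) ∧ ∀ k, y k - y 0 ∈ H

/-- `H` is G-delta dense -/
def GD (H : AddSubgroup G) : Prop :=
  ∀ (N : AddSubgroup G), PO N → ∀ g : G, ∃ n ∈ N, g - n ∈ H

theorem Good.mono {H H' : AddSubgroup G} (h : Good H) (hle : H ≤ H') : Good H' := by
  intro U ho hne
  obtain ⟨φ, hφ, y, hy, ha, hd⟩ := h U ho hne
  exact ⟨φ, hφ, y, hy, ha, fun k => hle (hd k)⟩

variable [IsTopologicalAddGroup G]

theorem exists_tail {y : ℕ → G} {a : G} (hy : Tendsto y atTop (𝓝 a)) (V : ℕ → Set G)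
    (hV : ∀ k, V k ∈ 𝓝 (0 : G)) : ∃ n : ℕ → ℕ, (∀ k, k ≤ n k) ∧ ∀ k, y (n k) - a ∈ V k := by
  have : ∀ k, ∃ n, k ≤ n ∧ y n - a ∈ V k := by
    intro k
    have h1 : Tendsto (fun j => y j - a) atTop (𝓝 (a - a)) := hy.sub_const a
    rw [sub_self] at h1
    obtain ⟨n, hn1, hn2⟩ := ((h1.eventually_mem (hV k)).and (eventually_ge_atTop k)).exists
    exact ⟨n, hn2, hn1⟩
  choose n h1 h2 using this
  exact ⟨n, h1, h2⟩

theorem nhds_of_open {U : Set G} (hU : IsOpen U) {x : G} (hx : x ∈ U) :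
    {v : G | x + v ∈ U} ∈ 𝓝 (0 : G) := by
  have h : Tendsto (fun v : G => x + v) (𝓝 0) (𝓝 (x + 0)) := tendsto_const_nhds.add tendsto_id
  rw [add_zero] at h
  exact h (hU.mem_nhds hx)

theorem GD.dense {H : AddSubgroup G} (hH : GD H) : Dense (H : Set G) := by
  rw [dense_iff_inter_open]
  intro U hU hne
  obtain ⟨g, hg⟩ := hne
  obtain ⟨N, hN, h⟩ := exists_PO (fun _ => {v : G | g + v ∈ U}) (fun _ => nhds_of_open hU hg)
  obtain ⟨n, hn, hn'⟩ := hH N hN g
  refine ⟨g - n, ?_, hn'⟩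
  have := h (-n) (N.neg_mem hn) 0
  simpa [sub_eq_add_neg] using this

/-- the criterion -/
theorem Good.ssp {H : AddSubgroup G} (hH : GD H) (hg : Good H) : SSP H := by
  apply SSP.of
  intro O hO hne
  have hO' : ∀ n, ∃ U : Set G, IsOpen U ∧ (Subtype.val : H → G) ⁻¹' U = O n := fun n =>
    isOpen_induced_iff.1 (hO n)
  choose U hU hUO using hO'
  obtain ⟨φ, hφ, y, hy, ⟨a, ha⟩, hd⟩ := hg U hU (fun n => by
    obtain ⟨x, hx⟩ := hne n
    rw [← hUO n] at hx
    exact ⟨x.1, hx⟩)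
  have hV : ∀ k, ∃ V ∈ 𝓝 (0 : G), (∀ x ∈ V, -x ∈ V) ∧ ∀ x ∈ V, ∀ z ∈ V, x + z ∈
      {v : G | y k + v ∈ U (φ k)} := fun k => exists_half (nhds_of_open (hU _) (hy k))
  choose V hV hVs hVa using hV
  obtain ⟨n, hn1, hn2⟩ := exists_tail ha V hV
  obtain ⟨N, hN, hNV⟩ := exists_PO V hV
  obtain ⟨w, hw, hw'⟩ := hH N hN a
  -- h := a - w ∈ H
  refine ⟨φ, hφ, fun k => ⟨(y k - y 0) - (y (n k) - y 0) + (a - w),
    H.add_mem (H.sub_mem (hd k) (hd _)) hw'⟩, fun k => ?_, ⟨a - w, hw'⟩, ?_⟩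
  · rw [← hUO]
    show (y k - y 0) - (y (n k) - y 0) + (a - w) ∈ U (φ k)
    have h1 := hVa k (-(y (n k) - a)) (hVs k _ (hn2 k)) (-w) (hVs k _ (hNV w hw k))
    have h2 : (y k - y 0) - (y (n k) - y 0) + (a - w) = y k + (-(y (n k) - a) + -w) := by abel
    rw [h2]
    exact h1
  · rw [tendsto_subtype_rng]
    have hn : Tendsto n atTop atTop := tendsto_atTop_mono hn1 tendsto_id
    have h1 : Tendsto (fun k => (y k - y 0) - (y (n k) - y 0) + (a - w)) atTop
        (𝓝 ((a - y 0) - (a - y 0) + (a - w))) :=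
      ((ha.sub_const _).sub ((ha.comp hn).sub_const _)).add_const _
    simpa using h1

/-- finite index -/
theorem good_of_finite (hG : SSP G) {A : Type*} [AddCommGroup A] [Finite A] (χ : G →+ A) :
    Good χ.ker := by
  intro U ho hne
  obtain ⟨φ, hφ, y, hy, a, ha⟩ := hG.seq U ho hne
  obtain ⟨c, hc⟩ := Finite.exists_infinite_fiber (fun k => χ (y k))
  rw [Set.infinite_coe_iff] at hc
  have hfr : ∃ᶠ k in atTop, χ (y k) = c := by
    rw [Nat.frequently_atTop_iff_infinite]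
    exact hc
  obtain ⟨ψ, hψ, hψc⟩ := extraction_of_frequently_atTop hfr
  refine ⟨φ ∘ ψ, hφ.comp hψ, y ∘ ψ, fun k => hy _, ⟨a, ha.comp hψ.tendsto_atTop⟩, fun k => ?_⟩
  rw [AddMonoidHom.mem_ker, map_sub]
  show χ (y (ψ k)) - χ (y (ψ 0)) = 0
  rw [hψc, hψc, sub_self]

/-- a null sequence on which a homomorphism takes all values infinitely often -/
theorem good_of_values (hG : SSP G) {A : Type*} [AddCommGroup A] (χ : G →+ A) {z : ℕ → G}
    (hz : Tendsto z atTop (𝓝 0)) (hv : ∀ q : A, ∀ K : ℕ, ∃ k, K ≤ k ∧ χ (z k) = q) :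
    Good χ.ker := by
  intro U ho hne
  obtain ⟨φ, hφ, y, hy, a, ha⟩ := hG.seq U ho hne
  have hn : ∀ k, ∃ n, k ≤ n ∧ y k + z n ∈ U (φ k) ∧ χ (z n) = - χ (y k) := by
    intro k
    have h1 := hz.eventually_mem (nhds_of_open (ho _) (hy k))
    obtain ⟨K, hK⟩ := eventually_atTop.1 h1
    obtain ⟨n, hn1, hn2⟩ := hv (- χ (y k)) (max K k)
    exact ⟨n, le_trans (le_max_right _ _) hn1, hK n (le_trans (le_max_left _ _) hn1), hn2⟩
  choose n hn1 hn2 hn3 using hn
  refine ⟨φ, hφ, fun k => y k + z (n k), hn2, ⟨a + 0, ?_⟩, fun k => ?_⟩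
  · exact ha.add (hz.comp (tendsto_atTop_mono hn1 tendsto_id))
  · rw [AddMonoidHom.mem_ker, map_sub, map_add, map_add, hn3, hn3]
    simp

/-- strongly bad sequences of open sets -/
def SB (X : ℕ → Set G) (H : AddSubgroup G) : Prop :=
  ∀ φ : ℕ → ℕ, StrictMono φ → ∀ y : ℕ → G, (∀ k, y k ∈ X (φ k)) →
    (∃ a : G, Tendsto y atTop (𝓝 a)) → ¬ ∀ k, y k - y 0 ∈ H

theorem exists_SB_of_not_good {H : AddSubgroup G} (h : ¬ Good H) :
    ∃ X : ℕ → Set G, (∀ n, IsOpen (X n)) ∧ (∀ n, (X n).Nonempty) ∧ SB X H := by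
  unfold Good at h
  push Not at h
  obtain ⟨X, h1, h2, h3⟩ := h
  refine ⟨X, h1, h2, fun φ hφ y hy ha hall => ?_⟩
  obtain ⟨k, hk⟩ := h3 φ hφ y hy ha
  exact hk (hall k)

/-- density of bad sequences -/
theorem dense_bad (hG : SSP G) {H : AddSubgroup G} (h : ¬ Good H) (U : ℕ → Set G)
    (ho : ∀ n, IsOpen (U n)) (hne : ∀ n, (U n).Nonempty) :
    ∃ V : ℕ → Set G, (∀ n, IsOpen (V n)) ∧ (∀ n, (V n).Nonempty) ∧
      (∃ ψ : ℕ → ℕ, StrictMono ψ ∧ ∀ k, V k ⊆ U (ψ k)) ∧ SB V H := by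
  by_cases hU : SB U H
  · exact ⟨U, ho, hne, ⟨id, strictMono_id, fun k => subset_rfl⟩, hU⟩
  · unfold SB at hU
    push Not at hU
    obtain ⟨φ, hφ, u, hu, ⟨b, hb⟩, hd⟩ := hU
    obtain ⟨X, hX1, hX2, hX3⟩ := exists_SB_of_not_good h
    obtain ⟨θ, hθ, x, hx, a, ha⟩ := hG.seq X hX1 hX2
    -- choose a strictly increasing n with u k + (x (n k) - a) in U (φ k)
    have hev : ∀ k, ∃ K, ∀ n, K ≤ n → u k + (x n - a) ∈ U (φ k) := by
      intro k
      have h1 : Tendsto (fun j => x j - a) atTop (𝓝 (a - a)) := ha.sub_const a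
      rw [sub_self] at h1
      exact eventually_atTop.1 (h1.eventually_mem (nhds_of_open (ho _) (hu k)))
    choose K hK using hev
    obtain ⟨n, hn, hnK⟩ : ∃ n : ℕ → ℕ, StrictMono n ∧ ∀ k, K k ≤ n k := by
      refine ⟨fun k => (∑ i ∈ Finset.range (k + 1), K i) + k, ?_, fun k => ?_⟩
      · apply strictMono_nat_of_lt_succ
        intro k
        show (∑ i ∈ Finset.range (k + 1), K i) + k < (∑ i ∈ Finset.range (k + 1 + 1), K i) + (k + 1)
        rw [Finset.sum_range_succ _ (k + 1)]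
        omega
      · show K k ≤ (∑ i ∈ Finset.range (k + 1), K i) + k
        rw [Finset.sum_range_succ]
        omega
    refine ⟨fun k => U (φ k) ∩ {v | v - u k + a ∈ X (θ (n k))}, fun k => ?_, fun k => ?_,
      ⟨φ, hφ, fun k => inter_subset_left⟩, ?_⟩
    · refine (ho _).inter ?_
      exact (hX1 _).preimage (by fun_prop)
    · refine ⟨u k + (x (n k) - a), hK k _ (hnK k), ?_⟩
      show u k + (x (n k) - a) - u k + a ∈ X (θ (n k))
      have : u k + (x (n k) - a) - u k + a = x (n k) := by abel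
      rw [this]
      exact hx _
    · intro ρ hρ v hv ⟨c, hc⟩ hall
      refine hX3 (θ ∘ n ∘ ρ) (hθ.comp (hn.comp hρ)) (fun k => v k - u (ρ k) + a)
        (fun k => (hv k).2) ⟨c - b + a, ?_⟩ (fun k => ?_)
      · exact (hc.sub (hb.comp hρ.tendsto_atTop)).add_const a
      · have h1 : v k - u (ρ k) + a - (v 0 - u (ρ 0) + a) =
          (v k - v 0) - ((u (ρ k) - u 0) - (u (ρ 0) - u 0)) := by abel
        show v k - u (ρ k) + a - (v 0 - u (ρ 0) + a) ∈ H
        rw [h1]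
        exact H.sub_mem (hall k) (H.sub_mem (hd _) (hd _))

/-- for countably many bad subgroups there is a convergent sequence meeting every coset in a
finite set -/
theorem exists_bad_seq (hG : SSP G) (H : ℕ → AddSubgroup G) (h : ∀ n, ¬ Good (H n)) :
    ∃ y : ℕ → G, ∃ a : G, Tendsto y atTop (𝓝 a) ∧ ∀ n, {k | y k - a ∈ H n}.Finite := by
  classical
  have step : ∀ (n : ℕ) (U : {U : ℕ → Set G // (∀ n, IsOpen (U n)) ∧ (∀ n, (U n).Nonempty)}),
      ∃ V : {U : ℕ → Set G // (∀ n, IsOpen (U n)) ∧ (∀ n, (U n).Nonempty)},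
      ∃ ψ : ℕ → ℕ, StrictMono ψ ∧ (∀ k, V.1 k ⊆ U.1 (ψ k)) ∧ SB V.1 (H n) := by
    rintro n ⟨U, ho, hne⟩
    obtain ⟨V, h1, h2, ⟨ψ, h3, h4⟩, h5⟩ := dense_bad hG (h n) U ho hne
    exact ⟨⟨V, h1, h2⟩, ψ, h3, h4, h5⟩
  choose f ψ hψ hsub hSB using step
  let S : ℕ → {U : ℕ → Set G // (∀ n, IsOpen (U n)) ∧ (∀ n, (U n).Nonempty)} := fun n =>
    Nat.rec ⟨fun _ => univ, fun _ => isOpen_univ, fun _ => ⟨0, trivial⟩⟩ (fun j U => f j U) n
  have hS : ∀ j, S (j + 1) = f j (S j) := fun j => rfl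
  let P : ℕ → ℕ → ℕ := fun j => ψ j (S j)
  have hP : ∀ j, StrictMono (P j) := fun j => hψ j (S j)
  have hSsub : ∀ j k, (S (j + 1)).1 k ⊆ (S j).1 (P j k) := fun j k => by
    rw [hS]; exact hsub j (S j) k
  have hSSB : ∀ j, SB (S (j + 1)).1 (H j) := fun j => by
    rw [hS]; exact hSB j (S j)
  -- the diagonal sequence
  obtain ⟨φ, hφ, y, hy, a, ha⟩ := hG.seq (fun k => (S k).1 k) (fun k => (S k).2.1 k)
    (fun k => (S k).2.2 k)
  refine ⟨y, a, ha, fun n => ?_⟩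
  by_contra hinf
  have hfr : ∃ᶠ k in atTop, y k - a ∈ H n ∧ n + 1 ≤ φ k := by
    have h1 : ∃ᶠ k in atTop, y k - a ∈ H n := by
      rw [Nat.frequently_atTop_iff_infinite]
      exact hinf
    exact h1.and_eventually ((eventually_ge_atTop (n + 1)).mono fun k hk => hk.trans (hφ.id_le k))
  obtain ⟨τ, hτ, hτ'⟩ := extraction_of_frequently_atTop hfr
  -- explicit recursion for the index functions
  let Q : ℕ → ℕ → ℕ := fun d => Nat.rec id (fun d q => q ∘ P (n + 1 + d)) d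
  have hQ0 : Q 0 = id := rfl
  have hQs : ∀ d, Q (d + 1) = Q d ∘ P (n + 1 + d) := fun d => rfl
  have hQm : ∀ d, StrictMono (Q d) := by
    intro d
    induction d with
    | zero => rw [hQ0]; exact strictMono_id
    | succ d ih => rw [hQs]; exact ih.comp (hP _)
  have hQsub : ∀ d k, (S (n + 1 + d)).1 k ⊆ (S (n + 1)).1 (Q d k) := by
    intro d
    induction d with
    | zero => intro k; exact subset_rfl
    | succ d ih =>
      intro k
      rw [hQs]
      exact (hSsub _ k).trans (ih _)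
  let R : ℕ → ℕ := fun k => Q (k - (n + 1)) k
  have hRm : ∀ k l, n + 1 ≤ k → k < l → R k < R l := by
    intro k l hk hkl
    induction l, hkl using Nat.le_induction with
    | base =>
      show Q (k - (n + 1)) k < Q (k + 1 - (n + 1)) (k + 1)
      have : k + 1 - (n + 1) = (k - (n + 1)) + 1 := by omega
      rw [this, hQs]
      exact (hQm _) (lt_of_lt_of_le (Nat.lt_succ_self k) ((hP _).id_le _))
    | succ l hkl ih =>
      refine ih.trans ?_
      show Q (l - (n + 1)) l < Q (l + 1 - (n + 1)) (l + 1)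
      have : l + 1 - (n + 1) = (l - (n + 1)) + 1 := by
        have : k + 1 ≤ l := hkl
        omega
      rw [this, hQs]
      exact (hQm _) (lt_of_lt_of_le (Nat.lt_succ_self l) ((hP _).id_le _))
  refine hSSB n (fun k => R (φ (τ k))) ?_ (y ∘ τ) ?_ ⟨a, ha.comp hτ.tendsto_atTop⟩ ?_
  · intro k l hkl
    exact hRm _ _ (hτ' k).2 (hφ (hτ hkl))
  · intro k
    have h1 := hy (τ k)
    have h2 := (hτ' k).2
    have h3 : n + 1 + (φ (τ k) - (n + 1)) = φ (τ k) := by omega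
    have h4 := hQsub (φ (τ k) - (n + 1)) (φ (τ k))
    rw [h3] at h4
    exact h4 h1
  · intro k
    have h1 := (H n).sub_mem (hτ' k).1 (hτ' 0).1
    simpa using h1

end SSPG
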