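import Pool.Agent.SSPG.CaseB
import Pool.Agent.SSPG.Func

/-! Case NB and the main theorem. -/

open Filter Topology Set TopologicalSpace

namespace SSPG

universe u

variable {G : Type u} [AddCommGroup G] [TopologicalSpace G] [IsTopologicalAddGroup G]

theorem caseNB [T2Space G] (hG : SSP G)
    (hub : ∀ N : AddSubgroup G, PO N → ∀ m : ℕ, ∃ g ∈ N, (m + 1) • g ≠ 0) :
    ∃ H : AddSubgroup G, H ≠ ⊤ ∧ GD H ∧ Good H := by
  classical
  obtain ⟨W0, hW0, -⟩ := exists_PO (G := G) (fun _ => univ) (fun _ => univ_mem)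
  obtain ⟨ι, e, hfin, htors⟩ := coordsQ G
  have hinf := infinite_coord hG e hfin htors hub ⟨W0, hW0⟩
  let j : ℕ ↪ {i | ∀ N : AddSubgroup G, PO N → ∃ x ∈ N, e i x ≠ 0} := hinf.natEmbedding
  have hj : ∀ k, ∀ N : AddSubgroup G, PO N → ∃ x ∈ N, e (j k).1 x ≠ 0 := fun k => (j k).2
  have hjfin : ∀ g, (Function.support fun k => e (j k).1 g).Finite := by
    intro g
    have h1 : Function.Injective (fun k => (j k).1) := fun a b hab => j.injective (Subtype.ext hab)
    exact ((hfin g).preimage h1.injOn).subset (fun k hk => hk)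
  let E : G →+ (ℕ →₀ ℚ) :=
    { toFun := fun g => Finsupp.ofSupportFinite (fun k => e (j k).1 g) (hjfin g)
      map_zero' := by
        ext k
        exact map_zero (e (j k).1)
      map_add' := fun x y => by
        ext k
        exact map_add (e (j k).1) x y }
  have hE : ∀ g k, E g k = e (j k).1 g := fun g k => rfl
  -- the stable image
  let L : Set (ℕ →₀ ℚ) := {q | ∀ N : AddSubgroup G, PO N → ∃ x ∈ N, E x = q}
  obtain ⟨Ns, hNs, hNsL⟩ : ∃ N : AddSubgroup G, PO N ∧ ∀ x ∈ N, E x ∈ L := by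
    have h1 : ∀ q : {q : ℕ →₀ ℚ // q ∉ L}, ∃ N : AddSubgroup G, PO N ∧ ∀ x ∈ N, E x ≠ q.1 := by
      rintro ⟨q, hq⟩
      simp only [L, mem_ofPred_eq] at hq
      push Not at hq
      exact hq
    choose K hK hK' using h1
    obtain ⟨N, hN, -, hNK⟩ := exists_PO_le_of_countable K hK W0 hW0
    refine ⟨N, hN, fun x hx => ?_⟩
    by_contra hxL
    exact hK' ⟨E x, hxL⟩ x (hNK ⟨E x, hxL⟩ hx) rfl
  have hL : ∀ k, ∃ l ∈ L, l k ≠ 0 := by
    intro k
    obtain ⟨x, hx, hx'⟩ := hj k Ns hNs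
    exact ⟨E x, hNsL x hx, hx'⟩
  -- any functional with the right values on L gives a G-delta dense proper kernel
  have hker : ∀ u : (ℕ →₀ ℚ) →ₗ[ℚ] ℚ, (∀ b : ℕ, ∃ l ∈ L, u l = 1 / ((b : ℚ) + 1)) →
      (u.toAddMonoidHom.comp E).ker ≠ ⊤ ∧ GD (u.toAddMonoidHom.comp E).ker := by
    intro u hu
    constructor
    · intro htop
      obtain ⟨l, hl, hl'⟩ := hu 0
      obtain ⟨x, -, hx'⟩ := hl W0 hW0
      have h1 : x ∈ (u.toAddMonoidHom.comp E).ker := by rw [htop]; trivial
      rw [AddMonoidHom.mem_ker] at h1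
      have h2 : u (E x) = 0 := h1
      rw [hx', hl'] at h2
      norm_num at h2
    · intro N hN g
      obtain ⟨l, hl, hl'⟩ := hu ((u (E g)).den - 1)
      obtain ⟨x, hx, hx'⟩ := hl N hN
      refine ⟨(u (E g)).num • x, N.zsmul_mem hx _, ?_⟩
      rw [AddMonoidHom.mem_ker, map_sub, map_zsmul]
      show u (E g) - (u (E g)).num • u (E x) = 0
      rw [hx', hl']
      have h3 : (((u (E g)).den - 1 : ℕ) : ℚ) + 1 = ((u (E g)).den : ℚ) := by
        have := (u (E g)).pos
        have h4 : (u (E g)).den - 1 + 1 = (u (E g)).den := by omega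
        exact_mod_cast h4
      rw [h3, zsmul_eq_mul, mul_one_div, Rat.num_div_den, sub_self]
  -- the increasing chain
  let Gm : ℕ → AddSubgroup G := fun m =>
    { carrier := {g | ∀ i, m ≤ i → E g i = 0}
      zero_mem' := by intro i _; simp
      add_mem' := by
        intro a b ha hb i hi
        rw [map_add, Finsupp.add_apply, ha i hi, hb i hi, add_zero]
      neg_mem' := by
        intro a ha i hi
        rw [map_neg, Finsupp.neg_apply, ha i hi, neg_zero] }
  have hGm : ∀ m g, g ∈ Gm m ↔ ∀ i, m ≤ i → E g i = 0 := fun m g => Iff.rfl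
  by_cases hgood : ∃ m, Good (Gm m)
  · obtain ⟨m, hm⟩ := hgood
    obtain ⟨u, hu, hu'⟩ := func_one L hL m
    obtain ⟨h1, h2⟩ := hker u hu
    refine ⟨_, h1, h2, hm.mono fun g hg => ?_⟩
    rw [AddMonoidHom.mem_ker]
    exact hu' (E g) ((hGm m g).1 hg)
  · push Not at hgood
    obtain ⟨y, a, hya, hyf⟩ := exists_bad_seq hG Gm hgood
    obtain ⟨u, hu, hu'⟩ := func_two L hL (fun k => E (y k - a)) (fun m => hyf m)
    obtain ⟨h1, h2⟩ := hker u hu
    refine ⟨_, h1, h2, good_of_values hG (u.toAddMonoidHom.comp E) (z := fun k => y k - a) ?_ hu'⟩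
    have := hya.sub_const a
    rwa [sub_self] at this

/-- **Main theorem.** A non-metrizable SSP Abelian group has a proper dense SSP subgroup. -/
theorem main [T2Space G] (hG : SSP G) (hm : ¬ MetrizableSpace G) :
    ∃ H : AddSubgroup G, H ≠ ⊤ ∧ Dense (H : Set G) ∧ SSP H := by
  have key : ∃ H : AddSubgroup G, H ≠ ⊤ ∧ GD H ∧ Good H := by
    by_cases hb : ∃ m : ℕ, ∃ N : AddSubgroup G, PO N ∧ ∀ x ∈ N, (m + 1) • x = 0
    · exact caseB hG hm hb
    · push Not at hb
      exact caseNB hG (fun N hN m => hb m N hN)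
  obtain ⟨H, h1, h2, h3⟩ := key
  exact ⟨H, h1, h2.dense, h3.ssp h2⟩

end SSPG
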