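import Pool.Agent.SSPG.Basic

/-! Non-metrizability, and homomorphisms vanishing on a closed G-delta subgroup. -/

open Filter Topology Set TopologicalSpace

namespace SSPG

variable {G : Type*} [AddCommGroup G] [TopologicalSpace G] [IsTopologicalAddGroup G]

/-- a continuous endomorphism killing `N = ⋂ W j` is small on some `W j` -/
theorem small_of_kill (hG : SSP G) {W : ℕ → Set G} (hW : Nice W) (f : G →+ G)
    (hf : Continuous f) (hN : ∀ x, (∀ j, x ∈ W j) → f x = 0) {V : Set G} (hV : V ∈ 𝓝 (0 : G)) :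
    ∃ j, ∀ w ∈ W j, f w ∈ V := by
  by_contra hcon
  push Not at hcon
  obtain ⟨V', ⟨hV', hc⟩, hV'V⟩ := (closed_nhds_basis (0 : G)).mem_iff.1 hV
  simp only [id] at hV'V
  obtain ⟨φ, hφ, x, hx, a, ha⟩ := hG.seq (fun j => interior (W j) \ (f ⁻¹' V'))
    (fun j => isOpen_interior.sdiff (hc.preimage hf)) (fun j => by
      obtain ⟨w, hw, hw'⟩ := hcon (j + 1)
      refine ⟨w, ?_, fun h => hw' (hV'V h)⟩
      rw [mem_interior_iff_mem_nhds]
      have h1 : (fun v => w + v) '' (W (j + 1)) ∈ 𝓝 w := by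
        have := (Homeomorph.addLeft w).isOpenMap.image_mem_nhds (hW.mem (j + 1))
        simpa using this
      refine mem_of_superset h1 ?_
      rintro _ ⟨v, hv, rfl⟩
      exact hW.add j _ _ hw hv)
  have haN : ∀ i, a ∈ W i := by
    intro i
    have h1 : ∀ᶠ j in atTop, a - x j ∈ W (i + 1) := by
      have : Tendsto (fun j => a - x j) atTop (𝓝 (a - a)) := ha.const_sub a
      rw [sub_self] at this
      exact this (hW.mem _)
    obtain ⟨j, hj1, hj2⟩ := (h1.and (eventually_ge_atTop (i + 1))).exists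
    have h2 : x j ∈ W (i + 1) := hW.anti (hj2.trans (hφ.id_le j)) (interior_subset (hx j).1)
    have := hW.add i _ _ hj1 h2
    simpa using this
  have h0 := hN a haN
  have h1 : Tendsto (fun j => f (x j)) atTop (𝓝 (f a)) := (hf.tendsto a).comp ha
  rw [h0] at h1
  obtain ⟨j, hj⟩ := (h1.eventually_mem hV').exists
  exact (hx j).2 hj

/-- in a non-metrizable SSP group every closed G-delta subgroup is nonzero -/
theorem exists_ne_zero [T2Space G] (hG : SSP G) (hm : ¬ MetrizableSpace G) (N : AddSubgroup G)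
    (hN : PO N) : ∃ x ∈ N, x ≠ 0 := by
  by_contra hcon
  push Not at hcon
  apply hm
  obtain ⟨W, hW, hWN⟩ := hN
  have hb : (𝓝 (0 : G)).HasBasis (fun _ : ℕ => True) W := by
    rw [hasBasis_iff]
    intro V
    constructor
    · intro hV
      obtain ⟨j, hj⟩ := small_of_kill hG hW (AddMonoidHom.id G) continuous_id
        (fun x hx => hcon x ((hWN x).2 hx)) hV
      exact ⟨j, trivial, hj⟩
    · rintro ⟨j, -, hj⟩
      exact mem_of_superset (hW.mem j) hj
  have : (𝓝 (0 : G)).IsCountablyGenerated := hb.isCountablyGenerated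
  let _ : UniformSpace G := IsTopologicalAddGroup.rightUniformSpace G
  have : IsUniformAddGroup G := isUniformAddGroup_of_addCommGroup
  have : (uniformity G).IsCountablyGenerated := IsUniformAddGroup.uniformity_countably_generated
  exact UniformSpace.metrizableSpace

/-- total boundedness -/
theorem exists_finset (hG : SSP G) {V : Set G} (hV : V ∈ 𝓝 (0 : G)) :
    ∃ F : Finset G, ∀ g : G, ∃ f ∈ F, g - f ∈ V := by
  by_contra hcon
  push Not at hcon
  obtain ⟨V1, hV1, hs1, ha1⟩ := exists_half hV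
  obtain ⟨V2, hV2, hs2, ha2⟩ := exists_half hV1
  obtain ⟨s, -, hs⟩ := exists_seq_of_forall_finset_exists (fun _ : G => True)
    (fun x y => y - x ∉ V) (fun F _ => by
      obtain ⟨g, hg⟩ := hcon F
      exact ⟨g, trivial, hg⟩)
  obtain ⟨φ, hφ, x, hx, a, ha⟩ := hG.seq (fun j => interior ((fun v => s j + v) '' V2))
    (fun j => isOpen_interior) (fun j => ⟨s j, by
      rw [mem_interior_iff_mem_nhds]
      have := (Homeomorph.addLeft (s j)).isOpenMap.image_mem_nhds hV2
      simpa using this⟩)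
  have h1 : ∀ᶠ j in atTop, a - x j ∈ V2 := by
    have : Tendsto (fun j => a - x j) atTop (𝓝 (a - a)) := ha.const_sub a
    rw [sub_self] at this
    exact this hV2
  obtain ⟨j, hj⟩ := h1.exists
  obtain ⟨i, hi1, hi2⟩ := (h1.and (eventually_gt_atTop j)).exists
  obtain ⟨v, hv, hv'⟩ := interior_subset (hx j)
  obtain ⟨w, hw, hw'⟩ := interior_subset (hx i)
  refine hs (φ j) (φ i) (hφ hi2) ?_
  have h2 : s (φ i) - s (φ j) = (-(a - x i) + -w) + ((a - x j) + v) := by
    rw [← hv', ← hw']; simp only []; abel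
  rw [h2]
  exact ha1 _ (ha2 _ (hs2 _ hi1) _ (hs2 _ hw)) _ (ha2 _ hj _ hv)

/-- if `m N = 0` for some closed G-delta subgroup then `m G` meets some closed
G-delta subgroup trivially -/
theorem exists_PO_inf [T2Space G] (hG : SSP G) (m : ℕ) (N : AddSubgroup G) (hN : PO N)
    (hm : ∀ x ∈ N, m • x = 0) :
    ∃ N' : AddSubgroup G, PO N' ∧ ∀ g : G, m • g ∈ N' → m • g = 0 := by
  classical
  obtain ⟨W, hW, hWN⟩ := hN
  choose F hF using fun j => exists_finset hG (hW.mem j)
  -- for f in F j, either 0 is in the closure of m (f + W j) or there is a neighbourhood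
  have hU : ∀ j, ∃ U ∈ 𝓝 (0 : G), ∀ f ∈ F j, (∀ V ∈ 𝓝 (0 : G), ∃ w ∈ W j, m • (f + w) ∈ V) ∨
      (∀ w ∈ W j, m • (f + w) ∉ U) := by
    intro j
    have : ∀ f : G, ∃ U ∈ 𝓝 (0 : G), (∀ V ∈ 𝓝 (0 : G), ∃ w ∈ W j, m • (f + w) ∈ V) ∨
      (∀ w ∈ W j, m • (f + w) ∉ U) := by
      intro f
      by_cases h : ∀ V ∈ 𝓝 (0 : G), ∃ w ∈ W j, m • (f + w) ∈ V
      · exact ⟨univ, univ_mem, Or.inl h⟩
      · push Not at h
        obtain ⟨V, hV, h⟩ := h
        exact ⟨V, hV, Or.inr h⟩
    choose U hU hU' using this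
    refine ⟨⋂ f ∈ F j, U f, (Filter.biInter_finset_mem _).2 fun f _ => hU f, ?_⟩
    intro f hf
    rcases hU' f with h | h
    · exact Or.inl h
    · refine Or.inr fun w hw hmem => h w hw ?_
      exact (mem_iInter₂.1 hmem) f hf
  choose U hU1 hU2 using hU
  obtain ⟨N', hN', h⟩ := exists_PO U hU1
  refine ⟨N', hN', fun g hg => ?_⟩
  by_contra hne
  have hnh : ({m • g}ᶜ : Set G) ∈ 𝓝 (0 : G) :=
    isOpen_compl_singleton.mem_nhds (by simpa using Ne.symm hne)
  obtain ⟨V1, hV1, hs1, ha1⟩ := exists_half hnh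
  obtain ⟨V2, hV2, hs2, ha2⟩ := exists_half hV1
  obtain ⟨j, hj⟩ := small_of_kill hG hW (nsmulAddMonoidHom m) (continuous_nsmul m)
    (fun x hx => hm x ((hWN x).2 hx)) hV2
  simp only [nsmulAddMonoidHom_apply] at hj
  obtain ⟨f, hf, hgf⟩ := hF j g
  rcases hU2 j f hf with h1 | h1
  · obtain ⟨w, hw, hw'⟩ := h1 V2 hV2
    have h2 : m • g = (m • (f + w) + m • (g - f)) + (0 + - (m • w)) := by
      rw [smul_add, smul_sub]; abel
    have h3 := ha1 _ (ha2 _ hw' _ (hj _ hgf)) _
      (ha2 _ (mem_of_mem_nhds hV2) _ (hs2 _ (hj _ hw)))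
    rw [← h2] at h3
    exact h3 rfl
  · have := h (m • g) hg j
    refine h1 (g - f) hgf ?_
    simpa using this

end SSPG
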